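import Pool.Agent.Helper76.TC.Goals

/-!
# Project TC (MP_ccd65d_gt), packet CM: dimension two
-/

set_option autoImplicit false

open Set

namespace Pool.Agent.Helper87.TC.CM

open Pool.Agent.Helper50.CT (rv Cov Sh)
open Pool.Agent.Helper76.TC

/-- bounded turning is monotone in the constant -/
theorem turn_mono {A A' : ℝ} (h : A ≤ A') {X : Type} [MetricSpace X] (hT : Turn A X) : Turn A' X := by
  intro x y
  refine (hT x y).mono ?_
  exact Metric.closedBall_subset_closedBall (mul_le_mul_of_nonneg_right h dist_nonneg)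

theorem t (hCO : S_CO) (hSE : S_SE) (hLV : S_LV) (hPI : S_PI) (hCE : S_CE) : S_CM := by
  intro A₀ C N R0 l hR0 hl
  obtain ⟨A, hA⟩ : ∃ A : ℝ, A = max A₀ 1 := ⟨_, rfl⟩
  have hA1 : 1 ≤ A := hA ▸ le_max_right _ _
  have hA0 : A₀ ≤ A := hA ▸ le_max_left _ _
  have hApos : 0 < A := lt_of_lt_of_le one_pos hA1
  obtain ⟨D', hD'⟩ : ∃ D' : ℝ, D' = min (l / 4) (R0 / 3) := ⟨_, rfl⟩
  have hD'l : D' ≤ l / 4 := hD' ▸ min_le_left _ _
  have hD'R : D' ≤ R0 / 3 := hD' ▸ min_le_right _ _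
  have hD'pos : 0 < D' := by rw [hD']; exact lt_min (by linarith) (by linarith)
  obtain ⟨s, hs⟩ : ∃ s : ℝ, s = D' / (3 * A) := ⟨_, rfl⟩
  have hspos : 0 < s := by rw [hs]; positivity
  have hsA : 3 * A * s = D' := by rw [hs]; field_simp
  obtain ⟨M, hM⟩ : ∃ M : ℕ, M = ⌈C * (9 * A) ^ N⌉₊ := ⟨_, rfl⟩
  have hMC : C * (9 * A) ^ N ≤ M := by rw [hM]; exact Nat.le_ceil _
  have hM0 : (0 : ℝ) ≤ M := Nat.cast_nonneg _
  obtain ⟨δ, hδ⟩ : ∃ δ : ℝ, δ = min (l / 12) (min (D' / (480 * A * (M + 1))) (s / (480 * A))) := ⟨_, rfl⟩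
  have hδl : δ ≤ l / 12 := hδ ▸ min_le_left _ _
  have hδM : δ ≤ D' / (480 * A * (M + 1)) := hδ ▸ (min_le_right _ _).trans (min_le_left _ _)
  have hδs : δ ≤ s / (480 * A) := hδ ▸ (min_le_right _ _).trans (min_le_right _ _)
  have hδpos : 0 < δ := by
    rw [hδ]
    refine lt_min (by linarith) (lt_min ?_ ?_) <;> positivity
  obtain ⟨E, hE⟩ : ∃ E : ℝ, E = 24 * A * (20 * δ) := ⟨_, rfl⟩
  have hEpos : 0 < E := by rw [hE]; positivity
  have hEs : E ≤ s := by
    rw [le_div_iff₀ (by positivity)] at hδs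
    rw [hE]; linarith
  have hEM : (M : ℝ) * E ≤ D' := by
    rw [le_div_iff₀ (by positivity)] at hδM
    have : (M : ℝ) * E ≤ ((M : ℝ) + 1) * E := by nlinarith
    rw [hE] at this ⊢
    nlinarith
  refine ⟨δ, hδpos, ?_⟩
  intro X T _ _ _ _ _ _ _ _ π φ hφ hcov hturn₀ hpack
  have hturn : Turn A X := turn_mono hA0 hturn₀
  by_contra hcon
  have hgh : GromovHausdorff.ghDist T (Icc (0 : ℝ) l) < δ := not_le.mp hcon
  obtain ⟨p, q, D, hset, hD⟩ := hSE 2 A l δ X T π hcov hA1 hturn hl hgh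
  obtain ⟨y, hy⟩ := hCO 2 A (20 * δ) D X T π p q hset
  rw [← hE] at hy
  have hdq := hset.dq
  -- a point `z` at distance at least `D'` from `y`
  obtain ⟨z, hz⟩ : ∃ z : X, D' ≤ dist (π y) (π z) := by
    by_contra hno
    push Not at hno
    have h1 := hno p
    have h2 := hno q
    have h3 := dist_triangle (π p) (π y) (π q)
    rw [dist_comm (π p) (π y)] at h3
    linarith
  obtain ⟨x, -, hx⟩ := hLV 2 A X T π hcov hturn y z D' hD'pos.le hz
  have hyx : 2 * A * s < dist (π y) (π x) := by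
    rw [hx]
    nlinarith [mul_pos hApos hspos]
  refine hCE X T π φ A s x y hφ hcov hA1 hturn hspos hyx ?_ ?_
  · intro k
    refine ⟨1, le_rfl, ?_⟩
    rw [one_smul]
    refine AddSubgroup.closure_mono ?_ (hy k)
    intro k' hk'
    exact le_trans hk' hEs
  · refine hPI 2 X T π hcov x y E s D' M hspos hEpos.le ?_ hEM ?_ hy
    · rw [dist_comm, hx]
    · intro F hF1 hF2
      have hsR : s ≤ 3 * D' := by
        have : s ≤ 3 * A * s := by nlinarith
        linarith
      have hcard := hpack x s (3 * D') hspos hsR (by linarith) F hF1 hF2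
      have hq : 3 * D' / s = 9 * A := by
        rw [← hsA]
        field_simp
        ring
      rw [hq] at hcard
      exact_mod_cast hcard.trans hMC

end Pool.Agent.Helper87.TC.CM
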